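import Pool.Agent.V11193.MC.Iso
import Pool.Agent.TH735.AQ.Crit
import Pool.Agent.TH735.AQ.Nec

set_option autoImplicit false

/-!
# Abundance for nef divisors on torus quotients with torsion canonical class

Let `X = V / Γ` be the quotient of a complex torus of any dimension by any finite group whose elements
are unramified in codimension one (`Γ` has no mirrors), for example a crepant or terminal
quotient of an abelian variety. So `X` is klt, and `K_X` is torsion. The theorem says:

* (1) a power of `K_X` is trivial;
* (2) all nef line bundles on `X` are semiample if and only if `H^1(X, O_X) = 0`; so the statement of the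
  problem is true for these `X`, and the hypothesis on `H^1` cannot be left out for any of them;
* (3) whatever `H^1(X, O_X)` is, a line bundle is semiample if and only if it is nef and a power of it
  is trivial on the subtorus given by the kernel of its Chern form;
* (4) if `X` is projective, then up to automorphisms `X` has only finitely many fibrations which are
  given by linear maps and have a projective base; in particular the nef line bundles on `X` induce only
  finitely many fibrations up to automorphisms.

(4) is based on the cone theorem of the starting files (the core theorem behind MP_20d318_ag and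
MP_9f99c5_ag): finitely many nef classes span a cone whose translates under automorphisms cover the nef
and effective classes, and the fibration is determined by the kernel of the form, which is the
intersection of the kernels of some of the generators. The theorem of the starting files
at MP_9a2ae6_ag is about the divisors `K_X + B`, which are torsion or effective here; the results for
MP_63735c_ag about primitive symplectic `X`.

`latt`, `IsTorusQuotient` and `LineBundle` are defined in `Pool.Agent.W594.SYZ.Defs2`; `IsChernForm`,
`IsNefForm`, `IsPositiveForm` and `Induces` in `Pool.Agent.W594.SYZ.TQDefs`; `HOneZero`, `IsFibration` and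
`IsSemiample` in `Pool.Agent.TH735.AQ.Defs`; `TorsionOnKernel` in `Pool.Agent.TH735.AQ.KerDefs`;
`OnMirror` and `IsLogPluricanonical` in `Pool.Agent.TH735.AQ.MirDefs`; `AffGrp` and `Normalizes` in
`Pool.Agent.Y167.Defs`; `Fib`, `IsF`, `Ind`, `IsProj`,
`IsFib`, `IsIso` and `FinitelyMany` in `Pool.Agent.V11193.MC.Iso`.
-/

namespace Pool.Agent.Results.MP_cda8c3_ag.TorusQuotientAbundance

open Pool.Agent.W594.SYZ2 Pool.Agent.TH735.AQ
open Pool.Agent.Y167 (AffGrp)
open Pool.Agent.V11193.MC (Fib IsProj IsFib FinitelyMany fibs pluri_triv isRamification_one)

variable {V : Type*} [NormedAddCommGroup V] [NormedSpace ℂ V]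

/-- A power of the canonical bundle of `X = V / Γ` is trivial, where `V → X` is unramified in
codimension one. -/
def TorsionCanonical (Γ : AffGrp V) : Prop :=
  IsRamification Γ (fun _ => 1) ∧ ∃ (m : ℕ) (K : LineBundle Γ), 1 ≤ m ∧
    IsLogPluricanonical K m (fun _ => 1) (fun _ => 1) ∧ K.IsTrivial

/-- All nef line bundles on `X = V / Γ` are semiample. -/
def NefSemiample (Γ : AffGrp V) : Prop :=
  ∀ (L : LineBundle Γ) (H : V → V → ℂ), IsChernForm L H → IsNefForm H → IsSemiample L

/-- A line bundle on `X = V / Γ` is semiample if and only if it is nef and a power of it is trivial on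
the subtorus given by the kernel of its Chern form. -/
def Criterion (Γ : AffGrp V) : Prop :=
  ∀ (L : LineBundle Γ) (H : V → V → ℂ), IsChernForm L H →
    (IsSemiample L ↔ IsNefForm H ∧ TorsionOnKernel L H)

/-- Let `X = V / Γ` be a quotient of a complex torus by a finite group, such that `Γ` has no mirrors. -/
theorem result [FiniteDimensional ℂ V] (Γ : AffGrp V) (hΓ : IsTorusQuotient Γ)
    (hm : ∀ v, ¬ OnMirror Γ v) :
    TorsionCanonical Γ ∧ (NefSemiample Γ ↔ HOneZero Γ) ∧ Criterion Γ ∧
      (IsProj Γ → FinitelyMany Γ {t | IsFib Γ t}) := by
  have := TQ.finite_Lin hΓ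
  refine ⟨⟨isRamification_one hm, Nat.card (TQ.Lin Γ),
    Pool.Agent.Y167.triv Γ, Nat.card_pos, pluri_triv hΓ, fun _ => 1,
    ⟨differentiable_const _, fun γ v => (mul_one _).symm⟩, fun v => one_ne_zero⟩,
    ⟨fun h => ?_, fun h01 L H hc hn => ?_⟩, fun L H hc => ⟨fun hs => ?_, fun h =>
      semiample_of_torsion hΓ hc h.1 h.2⟩, fun hproj => fibs hΓ hm hproj _ (fun t ht => ht)⟩
  · by_contra h01
    obtain ⟨P, hP, hno⟩ := exists_flat hΓ h01
    obtain ⟨n, Δ, π, h1, h2⟩ := h P _ (chern_of_flat hP) (fun v => le_of_eq Complex.zero_re.symm)
    exact hno n Δ π h1 h2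
  · obtain ⟨n, Δ, π, -, h4, h5⟩ := semiample hΓ h01 hc hn
    exact ⟨n, Δ, π, h4, h5⟩
  · refine ⟨?_, torsion_of_semiample hΓ hc hs⟩
    obtain ⟨n, Δ, π, h4, h5⟩ := hs
    exact (nef_of_induces hΓ hc h4 h5).1

end Pool.Agent.Results.MP_cda8c3_ag.TorusQuotientAbundance
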